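import Mathlib

set_option autoImplicit false

namespace Pool.Agent.R272.Chord

/-- The chord set `H(f)`: lengths `ℓ ∈ [0,1]` such that `f (x - ℓ) = f x` for some `x ∈ [ℓ,1]`. -/
def H (f : ℝ → ℝ) : Set ℝ :=
  {l | l ∈ Set.Icc (0 : ℝ) 1 ∧ ∃ x ∈ Set.Icc l 1, f (x - l) = f x}

/-- `g_n(x) = ∑_{k=1}^n sin (2 π k x)`. -/
noncomputable def g (n : ℕ) (x : ℝ) : ℝ :=
  ∑ k ∈ Finset.Icc 1 n, Real.sin (2 * Real.pi * k * x)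

/-- `V_n`, the union of the open intervals `(k/(n+1), k/n)` for `1 ≤ k ≤ n`. -/
def V (n : ℕ) : Set ℝ :=
  {l | ∃ k : ℕ, 1 ≤ k ∧ k ≤ n ∧ (k : ℝ) / (n + 1) < l ∧ l < (k : ℝ) / n}

end Pool.Agent.R272.Chord
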