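import Mathlib
import Pool.Agent.R272.Chord.Defs

set_option autoImplicit false

namespace Pool.Agent.R272.Chord

open Real

lemma g_cont (n : ℕ) : Continuous (g n) := by
  unfold g
  fun_prop

lemma g_zero (n : ℕ) : g n 0 = 0 := by simp [g]

lemma g_one (n : ℕ) : g n 1 = 0 := by
  unfold g
  apply Finset.sum_eq_zero
  intro k _
  rw [show 2 * π * (k : ℝ) * 1 = (2 * k : ℕ) * π by push_cast; ring]
  exact Real.sin_nat_mul_pi _

/-- The closed form. -/
lemma closed (n : ℕ) (a : ℝ) : sin (π * a) * g n a = sin (n * (π * a)) * sin ((n + 1) * (π * a)) := by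
  induction n with
  | zero => simp [g]
  | succ n ih =>
    have h1 : g (n + 1) a = g n a + sin (2 * π * (n + 1 : ℕ) * a) := by
      unfold g
      rw [Finset.sum_Icc_succ_top (by omega)]
    rw [h1, mul_add, ih]
    push_cast
    set e := π * a with he
    have e1 : 2 * π * ((n : ℝ) + 1) * a = 2 * ((n + 1) * e) := by rw [he]; ring
    rw [e1, Real.sin_two_mul]
    have e2 : ((n : ℝ) + 1 + 1) * e = (n + 1) * e + e := by ring
    have e3 : (n : ℝ) * e = (n + 1) * e - e := by ring
    rw [e2, e3, Real.sin_add, Real.sin_sub]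
    ring

/-- The identity for differences. -/
lemma diff_id (n : ℕ) (c h : ℝ) :
    (cos (2 * π * c) - cos (2 * π * h)) * (g n (c + h) - g n (c - h)) =
      sin (2 * π * h) - sin ((n + 1) * (2 * π * h)) * cos (n * (2 * π * c)) +
        sin (n * (2 * π * h)) * cos ((n + 1) * (2 * π * c)) := by
  induction n with
  | zero => simp [g]
  | succ n ih =>
    have h1 : ∀ x, g (n + 1) x = g n x + sin (2 * π * (n + 1 : ℕ) * x) := by
      intro x
      unfold g
      rw [Finset.sum_Icc_succ_top (by omega)]
    rw [h1, h1, show g n (c + h) + sin (2 * π * (n + 1 : ℕ) * (c + h)) -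
      (g n (c - h) + sin (2 * π * (n + 1 : ℕ) * (c - h))) =
      (g n (c + h) - g n (c - h)) + (sin (2 * π * (n + 1 : ℕ) * (c + h)) -
        sin (2 * π * (n + 1 : ℕ) * (c - h))) by ring, mul_add, ih]
    push_cast
    set t := 2 * π * c with ht
    set e := 2 * π * h with he
    have e1 : 2 * π * ((n : ℝ) + 1) * (c + h) = (n + 1) * t + (n + 1) * e := by
      rw [ht, he]; ring
    have e2 : 2 * π * ((n : ℝ) + 1) * (c - h) = (n + 1) * t - (n + 1) * e := by
      rw [ht, he]; ring
    have e3 : ((n : ℝ) + 1 + 1) * e = (n + 1) * e + e := by ring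
    have e4 : ((n : ℝ) + 1 + 1) * t = (n + 1) * t + t := by ring
    have e5 : (n : ℝ) * e = (n + 1) * e - e := by ring
    have e6 : (n : ℝ) * t = (n + 1) * t - t := by ring
    rw [e1, e2, e3, e4, e5, e6]
    simp only [Real.sin_add, Real.sin_sub, Real.cos_add, Real.cos_sub]
    ring

/-- No chord of length `ℓ`. -/
def NoChord (f : ℝ → ℝ) (l : ℝ) : Prop := ∀ x ∈ Set.Icc l 1, f (x - l) ≠ f x

/-- No horizontal chord of length in `(1/(n+1), 1/n)`. -/
lemma noChord_base (n : ℕ) (hn : 1 ≤ n) (l : ℝ) (h1 : 1 / ((n : ℝ) + 1) < l) (h2 : l < 1 / n) :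
    NoChord (g n) l := by
  intro x hx heq
  have hn0 : (0 : ℝ) < n := by exact_mod_cast hn
  have hl0 : 0 < l := lt_trans (by positivity) h1
  have hn1 : (1 : ℝ) ≤ n := by exact_mod_cast hn
  have hl1 : l < 1 := lt_of_lt_of_le h2 (by rw [div_le_one hn0]; exact hn1)
  rw [div_lt_iff₀ (by positivity)] at h1
  rw [lt_div_iff₀ hn0] at h2
  have hpi := Real.pi_pos
  -- signs
  have ha : 0 < sin (n * (π * l)) := by
    apply Real.sin_pos_of_pos_of_lt_pi (by positivity)
    nlinarith
  have hb : sin ((n + 1) * (π * l)) < 0 := by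
    have h3 : (n + 1) * (π * l) - π < π := by nlinarith
    have h4 : 0 < (n + 1) * (π * l) - π := by nlinarith
    have h5 := Real.sin_pos_of_pos_of_lt_pi h4 h3
    rw [Real.sin_sub_pi] at h5
    linarith
  have hc : 0 < sin (π * l) := by
    apply Real.sin_pos_of_pos_of_lt_pi (by positivity)
    nlinarith
  have hgl : g n l < 0 := by
    have h3 := closed n l
    have h4 : sin (n * (π * l)) * sin ((n + 1) * (π * l)) < 0 := mul_neg_of_pos_of_neg ha hb
    rw [← h3] at h4
    by_contra h
    push Not at h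
    have := mul_nonneg hc.le h
    linarith
  rcases hx.1.lt_or_eq with hxl | hxl
  · rcases hx.2.lt_or_eq with hx1 | hx1
    · -- interior
      set c := x - l / 2 with hcdef
      have e1 : c + l / 2 = x := by rw [hcdef]; ring
      have e2 : c - l / 2 = x - l := by rw [hcdef]; ring
      have h3 := diff_id n c (l / 2)
      rw [e1, e2, heq, sub_self, mul_zero] at h3
      have e3 : 2 * π * (l / 2) = π * l := by ring
      rw [e3] at h3
      set t := 2 * π * c with ht
      set e := π * l with he
      have hcos : cos t < cos e := by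
        rcases le_total t π with h | h
        · apply Real.cos_lt_cos_of_nonneg_of_le_pi (by positivity) h
          rw [ht, he, hcdef]
          nlinarith
        · rw [← Real.cos_two_pi_sub t]
          apply Real.cos_lt_cos_of_nonneg_of_le_pi (by positivity) (by linarith)
          rw [ht, he, hcdef]
          nlinarith
      -- X² + Y²
      set A := sin (n * e) with hA
      set B := -sin ((n + 1) * e) with hB
      have hB0 : 0 < B := by rw [hB]; linarith
      set X := B * cos (n * t) + A * cos ((n + 1) * t) with hX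
      set Y := B * sin (n * t) + A * sin ((n + 1) * t) with hY
      have h5 : X ^ 2 + Y ^ 2 = A ^ 2 + B ^ 2 + 2 * A * B * cos t := by
        have h6 : cos t = cos ((n + 1) * t) * cos (n * t) + sin ((n + 1) * t) * sin (n * t) := by
          rw [← Real.cos_sub]; congr 1; ring
        rw [hX, hY, h6]
        have h7 := Real.sin_sq_add_cos_sq (n * t)
        have h8 := Real.sin_sq_add_cos_sq ((n + 1) * t)
        linear_combination (B ^ 2) * h7 + (A ^ 2) * h8
      have h6 : sin e ^ 2 = A ^ 2 + B ^ 2 + 2 * A * B * cos e := by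
        have h7 : sin e = sin ((n + 1) * e) * cos (n * e) - cos ((n + 1) * e) * sin (n * e) := by
          rw [← Real.sin_sub]; congr 1; ring
        have h8 : cos e = cos ((n + 1) * e) * cos (n * e) + sin ((n + 1) * e) * sin (n * e) := by
          rw [← Real.cos_sub]; congr 1; ring
        have h9 := Real.sin_sq_add_cos_sq (n * e)
        have h10 := Real.sin_sq_add_cos_sq ((n + 1) * e)
        rw [hA, hB, h8]
        rw [h7]
        have h11 : cos (n * e) ^ 2 = 1 - sin (n * e) ^ 2 := by linarith
        have h12 : cos ((n + 1) * e) ^ 2 = 1 - sin ((n + 1) * e) ^ 2 := by linarith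
        linear_combination (sin ((n + 1) * e) ^ 2) * h11 + (sin (n * e) ^ 2) * h12
      have h7 : X ^ 2 < sin e ^ 2 := by
        have h8 : A * B * cos t < A * B * cos e :=
          mul_lt_mul_of_pos_left hcos (mul_pos ha hB0)
        nlinarith [sq_nonneg Y]
      have h8 : X = -sin e := by
        rw [hX, hB]
        linarith
      rw [h8] at h7
      have : (-sin e) ^ 2 = sin e ^ 2 := by ring
      linarith
    · -- x = 1
      rw [hx1, g_one] at heq
      have h3 : g n (1 - l) = - g n l := by
        unfold g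
        rw [← Finset.sum_neg_distrib]
        refine Finset.sum_congr rfl (fun k _ => ?_)
        rw [show 2 * π * (k : ℝ) * (1 - l) = k * (2 * π) - 2 * π * k * l by ring,
          Real.sin_nat_mul_two_pi_sub]
      rw [h3] at heq
      linarith
  · rw [← hxl, sub_self, g_zero] at heq
    linarith

/-- Hopf's additivity. -/
lemma noChord_add {f : ℝ → ℝ} (hf : Continuous f) {a b : ℝ} (ha : 0 < a) (hb : 0 < b)
    (hab : a + b ≤ 1) (h1 : NoChord f a) (h2 : NoChord f b) : NoChord f (a + b) := by
  -- constant sign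
  have sgn : ∀ l : ℝ, 0 < l → l ≤ 1 → NoChord f l →
      (∀ x ∈ Set.Icc l 1, f (x - l) < f x) ∨ (∀ x ∈ Set.Icc l 1, f x < f (x - l)) := by
    intro l hl hl1 h
    by_contra hcon
    push Not at hcon
    obtain ⟨⟨x, hx, hx2⟩, ⟨y, hy, hy2⟩⟩ := hcon
    have hcont : ContinuousOn (fun x => f x - f (x - l)) (Set.Icc l 1) := by fun_prop
    have hpre : IsPreconnected (Set.Icc l 1) := isPreconnected_Icc
    have hz := hpre.intermediate_value hx hy hcont
    have h0 : (0 : ℝ) ∈ Set.Icc (f x - f (x - l)) (f y - f (y - l)) := by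
      constructor <;> linarith
    obtain ⟨z, hz1, hz2⟩ := hz h0
    exact h z hz1 (by simp only at hz2; linarith)
  have hmax := isCompact_Icc.exists_isMaxOn (Set.nonempty_Icc.mpr (zero_le_one (α := ℝ)))
    (hf.continuousOn (s := Set.Icc (0 : ℝ) 1))
  obtain ⟨z, hz, hzmax⟩ := hmax
  have hle : ∀ x ∈ Set.Icc (0 : ℝ) 1, f x ≤ f z := fun x hx => hzmax hx
  rcases sgn a ha (by linarith) h1 with sa | sa <;> rcases sgn b hb (by linarith) h2 with sb | sb
  · intro x hx heq
    have h3 := sa x ⟨by linarith [hx.1], hx.2⟩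
    have h4 := sb (x - a) ⟨by linarith [hx.1], by linarith [hx.2]⟩
    rw [show x - a - b = x - (a + b) by ring] at h4
    linarith
  · exfalso
    rcases le_total z (1 - a) with h | h
    · have h3 := sa (z + a) ⟨by linarith [hz.1], by linarith⟩
      rw [add_sub_cancel_right] at h3
      have h4 := hle (z + a) ⟨by linarith [hz.1], by linarith⟩
      linarith
    · have h3 := sb z ⟨by linarith, hz.2⟩
      have h4 := hle (z - b) ⟨by linarith, by linarith [hz.2]⟩
      linarith
  · exfalso
    rcases le_total z (1 - b) with h | h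
    · have h3 := sb (z + b) ⟨by linarith [hz.1], by linarith⟩
      rw [add_sub_cancel_right] at h3
      have h4 := hle (z + b) ⟨by linarith [hz.1], by linarith⟩
      linarith
    · have h3 := sa z ⟨by linarith, hz.2⟩
      have h4 := hle (z - a) ⟨by linarith, by linarith [hz.2]⟩
      linarith
  · intro x hx heq
    have h3 := sa x ⟨by linarith [hx.1], hx.2⟩
    have h4 := sb (x - a) ⟨by linarith [hx.1], by linarith [hx.2]⟩
    rw [show x - a - b = x - (a + b) by ring] at h4
    linarith

lemma noChord_mul {f : ℝ → ℝ} (hf : Continuous f) {a : ℝ} (ha : 0 < a) (h1 : NoChord f a)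
    (m : ℕ) (hm : ((m : ℝ) + 1) * a ≤ 1) : NoChord f (((m : ℝ) + 1) * a) := by
  induction m with
  | zero => simpa using h1
  | succ m ih =>
    push_cast at hm ⊢
    have h2 := ih (by nlinarith)
    have h3 := noChord_add hf (a := ((m : ℝ) + 1) * a) (b := a) (by positivity) ha
      (by linarith) h2 h1
    rw [show ((m : ℝ) + 1 + 1) * a = ((m : ℝ) + 1) * a + a by ring]
    exact h3

lemma noChord_V (n : ℕ) (hn : 1 ≤ n) (l : ℝ) (hl : l ∈ V n) : NoChord (g n) l := by
  obtain ⟨k, hk1, hkn, h1, h2⟩ := hl
  have hn0 : (0 : ℝ) < n := by exact_mod_cast hn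
  have hk0 : (0 : ℝ) < k := by exact_mod_cast hk1
  have hkn' : (k : ℝ) ≤ n := by exact_mod_cast hkn
  have hb : NoChord (g n) (l / k) := by
    apply noChord_base n hn
    · rw [lt_div_iff₀ hk0, one_div_mul_eq_div]; exact h1
    · rw [div_lt_iff₀ hk0, one_div_mul_eq_div]; exact h2
  have hl0 : 0 < l := lt_trans (by positivity) h1
  have hl1 : l ≤ 1 := h2.le.trans (by rw [div_le_one hn0]; exact hkn')
  obtain ⟨m, rfl⟩ : ∃ m, k = m + 1 := ⟨k - 1, by omega⟩
  have e : (((m : ℝ)) + 1) * (l / ((m + 1 : ℕ) : ℝ)) = l := by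
    push_cast
    field_simp
  have := noChord_mul (g_cont n) (a := l / ((m + 1 : ℕ) : ℝ)) (by positivity) hb m
    (by rw [e]; exact hl1)
  rwa [e] at this

lemma g_zero_of (n : ℕ) (l : ℝ) (h0 : 0 < l) (h1 : l < 1)
    (h : sin (n * (π * l)) * sin ((n + 1) * (π * l)) = 0) : g n l = 0 := by
  have h2 := closed n l
  rw [h] at h2
  have hc : 0 < sin (π * l) := by
    have := Real.pi_pos
    apply Real.sin_pos_of_pos_of_lt_pi (by positivity)
    nlinarith
  rcases mul_eq_zero.mp h2 with h3 | h3
  · exact absurd h3 hc.ne'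
  · exact h3

theorem main (n : ℕ) (hn : 1 ≤ n) : H (g n) = Set.Icc 0 1 \ V n := by
  have hn0 : (0 : ℝ) < n := by exact_mod_cast hn
  ext l
  constructor
  · rintro ⟨hl, x, hx, hfx⟩
    refine ⟨hl, fun hV => ?_⟩
    exact noChord_V n hn l hV x hx hfx
  · rintro ⟨hl, hV⟩
    refine ⟨hl, ?_⟩
    by_contra hcon
    push Not at hcon
    have hno : NoChord (g n) l := fun x hx => hcon x hx
    -- l = 0, l = 1
    rcases hl.1.lt_or_eq with hl0 | hl0
    swap
    · exact hno 0 ⟨by rw [← hl0], by norm_num⟩ (by rw [← hl0]; simp)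
    rcases hl.2.lt_or_eq with hl1 | hl1
    swap
    · exact hno 1 ⟨by rw [hl1], le_rfl⟩ (by rw [hl1, sub_self, g_zero, g_one])
    have hzero : g n l ≠ 0 := by
      intro h
      exact hno l ⟨le_rfl, hl.2⟩ (by rw [sub_self, g_zero, h])
    set k := ⌊(n : ℝ) * l⌋₊ with hk
    have hk1 : (k : ℝ) ≤ n * l := Nat.floor_le (by positivity)
    have hk2 : (n : ℝ) * l < k + 1 := Nat.lt_floor_add_one _
    have hkn : k < n := by
      have : (k : ℝ) < n := lt_of_le_of_lt hk1 (by nlinarith)
      exact_mod_cast this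
    rcases hk1.lt_or_eq with hk3 | hk3
    swap
    · apply hzero
      apply g_zero_of n l hl0 hl1
      rw [show (n : ℝ) * (π * l) = k * π by rw [hk3]; ring, Real.sin_nat_mul_pi, zero_mul]
    rcases lt_trichotomy ((n + 1) * l) ((k : ℝ) + 1) with h | h | h
    · -- 1 - l in V n
      have hV' : (1 - l) ∈ V n := by
        refine ⟨n - k, by omega, by omega, ?_, ?_⟩
        · rw [Nat.cast_sub hkn.le, div_lt_iff₀ (by positivity)]
          nlinarith
        · rw [Nat.cast_sub hkn.le, lt_div_iff₀ hn0]
          nlinarith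
      have h3 := noChord_V n hn _ hV'
      have h4 := noChord_add (g_cont n) hl0 (by linarith) (by linarith) hno h3
      rw [show l + (1 - l) = 1 by ring] at h4
      exact h4 1 ⟨le_rfl, le_rfl⟩ (by rw [sub_self, g_zero, g_one])
    · apply hzero
      apply g_zero_of n l hl0 hl1
      rw [show ((n : ℝ) + 1) * (π * l) = ((k + 1 : ℕ) : ℝ) * π by push_cast; rw [← h]; ring,
        Real.sin_nat_mul_pi, mul_zero]
    · apply hV
      refine ⟨k + 1, by omega, by omega, ?_, ?_⟩
      · push_cast
        rw [div_lt_iff₀ (by positivity)]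
        linarith
      · push_cast
        rw [lt_div_iff₀ hn0]
        linarith

end Pool.Agent.R272.Chord
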